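import Mathlib

/-!
The class of representable weakening implication semigroups is not finitely axiomatisable and does
not have the finite representation property.
-/

set_option autoImplicit false

universe u

namespace Pool.Agent.Results.MP_5885b3_lc.NotFinAxNoFRP

open FirstOrder Filter

/-- The two binary operation symbols. -/
inductive OpSym : ℕ → Type
  | comp : OpSym 2
  | imp : OpSym 2

/-- The signature: two binary operation symbols and no relation symbols. -/
def sig : Language := ⟨OpSym, fun _ => Empty⟩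

/-- The operation of an algebra that interprets the composition symbol. -/
def opComp {A : Type u} [sig.Structure A] (a b : A) : A :=
  Language.Structure.funMap (L := sig) (OpSym.comp : sig.Functions 2) ![a, b]

/-- The operation of an algebra that interprets the implication symbol. -/
def opImp {A : Type u} [sig.Structure A] (a b : A) : A :=
  Language.Structure.funMap (L := sig) (OpSym.imp : sig.Functions 2) ![a, b]

/-- `R` is a weakening relation on the poset `X`. -/
def IsWeakening {X : Type u} [PartialOrder X] (R : X → X → Prop) : Prop :=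
  ∀ x' x y y', x' ≤ x → R x y → y ≤ y' → R x' y'

/-- Relational composition. -/
def relComp {X : Type u} (R S : X → X → Prop) : X → X → Prop :=
  fun x z => ∃ y, R x y ∧ S y z

/-- The implication of weakening relations. -/
def relImp {X : Type u} [PartialOrder X] (R S : X → X → Prop) : X → X → Prop :=
  fun x y => ∀ x' y', x' ≤ x → y ≤ y' → R x' y' → S x' y'

/-- `h` is a representation of the algebra `A` by weakening relations on the poset `X`. -/
def IsRepresentation {A : Type u} [sig.Structure A] {X : Type u} [PartialOrder X]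
    (h : A → X → X → Prop) : Prop :=
  Function.Injective h ∧ (∀ a, IsWeakening (h a)) ∧
    (∀ a b, h (opComp a b) = relComp (h a) (h b)) ∧
    (∀ a b, h (opImp a b) = relImp (h a) (h b))

/-- `A` is a representable weakening implication semigroup. -/
def IsRWIS (A : Type u) [sig.Structure A] : Prop :=
  ∃ (X : Type u) (_ : PartialOrder X) (h : A → X → X → Prop), IsRepresentation h

/-- `A` has a finite representation. -/
def HasFiniteRepresentation (A : Type u) [sig.Structure A] : Prop :=
  ∃ (X : Type u) (_ : PartialOrder X) (h : A → X → X → Prop), Finite X ∧ IsRepresentation h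

/-- Some finite set of first-order sentences has exactly the representable weakening implication
semigroups as its (nonempty) models. -/
def FinitelyAxiomatisable : Prop :=
  ∃ Φ : sig.Theory, Φ.Finite ∧ ∀ (A : Type u) [sig.Structure A] [Nonempty A],
    A ⊨ Φ ↔ IsRWIS A

/-- Every finite representable weakening implication semigroup has a finite representation. -/
def FiniteRepresentationProperty : Prop :=
  ∀ (A : Type u) [sig.Structure A] [Finite A], IsRWIS A → HasFiniteRepresentation A

/-! ### Sanity checks: weakening relations are closed under the operations -/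

theorem relComp_weakening {X : Type u} [PartialOrder X] {R S : X → X → Prop}
    (hR : IsWeakening R) (hS : IsWeakening S) : IsWeakening (relComp R S) := by
  rintro x' x z z' h₁ ⟨y, h₂, h₃⟩ h₄
  exact ⟨y, hR x' x y y h₁ h₂ le_rfl, hS y y z z' le_rfl h₃ h₄⟩

theorem relImp_weakening {X : Type u} [PartialOrder X] (R S : X → X → Prop) :
    IsWeakening (relImp R S) := by
  intro x' x y y' h₁ h₂ h₃ x'' y'' h₄ h₅ h₆
  exact h₂ x'' y'' (h₄.trans h₁) (h₃.trans h₅) h₆

/-! ### No finite representation property -/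

/-- Points of the rational line, with the discrete order. -/
structure Pt : Type u where
  q : ULift.{u} ℚ

instance : PartialOrder Pt.{u} where
  le a b := a = b
  le_refl _ := rfl
  le_trans _ _ _ h₁ h₂ := h₁.trans h₂
  le_antisymm _ _ h _ := h

/-- The four element algebra. -/
structure A4 : Type u where
  v : ULift.{u} (Bool × Bool)

instance : Finite A4.{u} :=
  Finite.of_injective (fun a : A4.{u} => a.v.down) (by
    rintro ⟨⟨a⟩⟩ ⟨⟨b⟩⟩ h
    simp only at h
    rw [h])

/-- An element of the four element algebra. -/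
def mk4 (p q : Bool) : A4.{u} := ⟨⟨(p, q)⟩⟩

/-- Composition in the four element algebra. -/
def comp4 (a b : A4.{u}) : A4.{u} :=
  mk4 ((a.v.down.1 && b.v.down.1) || (a.v.down.1 && b.v.down.2) || (a.v.down.2 && b.v.down.1))
    ((a.v.down.2 && b.v.down.2) || (a.v.down.1 && b.v.down.2) || (a.v.down.2 && b.v.down.1))

/-- Implication in the four element algebra. -/
def imp4 (a b : A4.{u}) : A4.{u} :=
  mk4 (!a.v.down.1 || b.v.down.1) (!a.v.down.2 || b.v.down.2)

instance : sig.Structure A4.{u} where
  funMap {n} f v := match n, f, v with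
    | _, OpSym.comp, v => comp4 (v 0) (v 1)
    | _, OpSym.imp, v => imp4 (v 0) (v 1)
  RelMap r := r.elim

theorem opComp4 (a b : A4.{u}) : opComp a b = comp4 a b := rfl

theorem opImp4 (a b : A4.{u}) : opImp a b = imp4 a b := rfl

/-- The representation on the rational line. -/
def rep4 (a : A4.{u}) (x y : Pt.{u}) : Prop :=
  (a.v.down.1 = true ∧ x.q.down < y.q.down) ∨ (a.v.down.2 = true ∧ y.q.down ≤ x.q.down)

theorem rep4_comp (a b : A4.{u}) : rep4 (comp4 a b) = relComp (rep4 a) (rep4 b) := by
  obtain ⟨⟨p, q⟩⟩ := a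
  obtain ⟨⟨p', q'⟩⟩ := b
  funext x z
  obtain ⟨⟨x⟩⟩ := x
  obtain ⟨⟨z⟩⟩ := z
  apply propext
  constructor
  · intro h
    have h1 : (∃ y : ℚ, ((p = true ∧ x < y) ∨ (q = true ∧ y ≤ x)) ∧
        ((p' = true ∧ y < z) ∨ (q' = true ∧ z ≤ y))) := by
      simp only [rep4, comp4, mk4, Bool.or_eq_true, Bool.and_eq_true] at h
      rcases h with ⟨((h | h) | h), h'⟩ | ⟨((h | h) | h), h'⟩
      · exact ⟨(x + z) / 2, Or.inl ⟨h.1, by linarith⟩, Or.inl ⟨h.2, by linarith⟩⟩
      · exact ⟨max x z + 1, Or.inl ⟨h.1, by linarith [le_max_left x z]⟩,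
          Or.inr ⟨h.2, by linarith [le_max_right x z]⟩⟩
      · exact ⟨min x z - 1, Or.inr ⟨h.1, by linarith [min_le_left x z]⟩,
          Or.inl ⟨h.2, by linarith [min_le_right x z]⟩⟩
      · exact ⟨x, Or.inr ⟨h.1, le_rfl⟩, Or.inr ⟨h.2, h'⟩⟩
      · exact ⟨max x z + 1, Or.inl ⟨h.1, by linarith [le_max_left x z]⟩,
          Or.inr ⟨h.2, by linarith [le_max_right x z]⟩⟩
      · exact ⟨min x z - 1, Or.inr ⟨h.1, by linarith [min_le_left x z]⟩,
          Or.inl ⟨h.2, by linarith [min_le_right x z]⟩⟩
    obtain ⟨y, h2, h3⟩ := h1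
    exact ⟨⟨⟨y⟩⟩, h2, h3⟩
  · rintro ⟨⟨⟨y⟩⟩, h2, h3⟩
    simp only [rep4] at h2 h3
    simp only [rep4, comp4, mk4, Bool.or_eq_true, Bool.and_eq_true]
    rcases h2 with ⟨h, h'⟩ | ⟨h, h'⟩ <;> rcases h3 with ⟨k, k'⟩ | ⟨k, k'⟩
    · exact Or.inl ⟨Or.inl (Or.inl ⟨h, k⟩), by linarith⟩
    · rcases lt_or_ge x z with h4 | h4
      · exact Or.inl ⟨Or.inl (Or.inr ⟨h, k⟩), h4⟩
      · exact Or.inr ⟨Or.inl (Or.inr ⟨h, k⟩), h4⟩
    · rcases lt_or_ge x z with h4 | h4
      · exact Or.inl ⟨Or.inr ⟨h, k⟩, h4⟩
      · exact Or.inr ⟨Or.inr ⟨h, k⟩, h4⟩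
    · exact Or.inr ⟨Or.inl (Or.inl ⟨h, k⟩), by linarith⟩

theorem rep4_imp (a b : A4.{u}) : rep4 (imp4 a b) = relImp (rep4 a) (rep4 b) := by
  obtain ⟨⟨p, q⟩⟩ := a
  obtain ⟨⟨p', q'⟩⟩ := b
  funext x y
  apply propext
  have key : rep4 (imp4 ⟨⟨p, q⟩⟩ ⟨⟨p', q'⟩⟩) x y ↔ (rep4 ⟨⟨p, q⟩⟩ x y → rep4 ⟨⟨p', q'⟩⟩ x y) := by
    simp only [rep4, imp4, mk4]
    rcases lt_or_ge x.q.down y.q.down with h | h
    · have h' : ¬ y.q.down ≤ x.q.down := not_le.2 h
      cases p <;> cases p' <;> simp [h, h']
    · have h' : ¬ x.q.down < y.q.down := not_lt.2 h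
      cases q <;> cases q' <;> simp [h, h']
  rw [key]
  constructor
  · rintro h x' y' rfl rfl
    exact h
  · intro h
    exact h x y rfl rfl

theorem rep4_injective : Function.Injective rep4.{u} := by
  intro a b h
  obtain ⟨⟨p, q⟩⟩ := a
  obtain ⟨⟨p', q'⟩⟩ := b
  have h1 := congrFun (congrFun h ⟨⟨0⟩⟩) ⟨⟨1⟩⟩
  have h2 := congrFun (congrFun h ⟨⟨0⟩⟩) ⟨⟨0⟩⟩
  have h3 : ((p = true ∧ (0:ℚ) < 1) ∨ (q = true ∧ (1:ℚ) ≤ 0)) =
    ((p' = true ∧ (0:ℚ) < 1) ∨ (q' = true ∧ (1:ℚ) ≤ 0)) := h1
  have h4 : ((p = true ∧ (0:ℚ) < 0) ∨ (q = true ∧ (0:ℚ) ≤ 0)) =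
    ((p' = true ∧ (0:ℚ) < 0) ∨ (q' = true ∧ (0:ℚ) ≤ 0)) := h2
  have n1 : ¬ (1:ℚ) ≤ 0 := by norm_num
  have n2 : (0:ℚ) < 1 := by norm_num
  simp only [n1, n2, and_true, and_false, or_false, lt_irrefl, le_refl, false_or,
    eq_iff_iff] at h3 h4
  have h5 : p = p' := Bool.eq_iff_iff.2 h3
  have h6 : q = q' := Bool.eq_iff_iff.2 h4
  rw [h5, h6]

theorem A4_rwis : IsRWIS A4.{u} := by
  refine ⟨Pt.{u}, inferInstance, rep4, rep4_injective, ?_, ?_, ?_⟩
  · rintro a x' x y y' rfl h rfl
    exact h
  · intro a b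
    rw [opComp4, rep4_comp]
  · intro a b
    rw [opImp4, rep4_imp]

theorem A4_no_finite : ¬ HasFiniteRepresentation A4.{u} := by
  rintro ⟨X, inst, h, hfin, hinj, hw, hc, hi⟩
  simp only [opComp4, opImp4] at hc hi
  have hone : ∀ x y, h (mk4 true true) x y := by
    intro x y
    have : h (mk4 true true) = relImp (h (mk4 false false)) (h (mk4 false false)) :=
      hi (mk4 false false) (mk4 false false)
    rw [this]
    intro x' y' _ _ h
    exact h
  have hzero : ∀ x y, ¬ h (mk4 false false) x y := by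
    intro x y hxy
    have hall : ∀ x' y', h (mk4 false false) x' y' := by
      intro x' y'
      have e1 : h (mk4 false false) = relComp (h (mk4 true true)) (h (mk4 false false)) :=
        hc (mk4 true true) (mk4 false false)
      have e2 : h (mk4 false false) = relComp (h (mk4 false false)) (h (mk4 true true)) :=
        hc (mk4 false false) (mk4 true true)
      rw [e2]
      refine ⟨y, ?_, hone _ _⟩
      rw [e1]
      exact ⟨x, hone _ _, hxy⟩
    have : h (mk4 false false) = h (mk4 true true) := by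
      funext x' y'
      exact propext ⟨fun _ => hone _ _, fun _ => hall _ _⟩
    have := hinj this
    simp [mk4] at this
  have hdisj : ∀ x y, h (mk4 true false) x y → h (mk4 false true) x y → False := by
    intro x y h1 h2
    have e : h (mk4 true true) =
        relImp (h (mk4 true false)) (relImp (h (mk4 false true)) (h (mk4 false false))) := by
      rw [← hi, ← hi]
      rfl
    have h3 := hone x y
    rw [e] at h3
    exact hzero x y (h3 x y le_rfl le_rfl h1 x y le_rfl le_rfl h2)
  have hne : Nonempty X := by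
    by_contra hX
    rw [not_nonempty_iff] at hX
    have : h (mk4 true true) = h (mk4 false false) := by
      funext x
      exact hX.elim x
    have := hinj this
    simp [mk4] at this
  have haa : ∀ x y z, h (mk4 true false) x y → h (mk4 true false) y z →
      h (mk4 true false) x z := by
    intro x y z h1 h2
    have e : h (mk4 true false) = relComp (h (mk4 true false)) (h (mk4 true false)) :=
      hc (mk4 true false) (mk4 true false)
    rw [e]
    exact ⟨y, h1, h2⟩
  have hbb : ∀ x y z, h (mk4 false true) x y → h (mk4 false true) y z →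
      h (mk4 false true) x z := by
    intro x y z h1 h2
    have e : h (mk4 false true) = relComp (h (mk4 false true)) (h (mk4 false true)) :=
      hc (mk4 false true) (mk4 false true)
    rw [e]
    exact ⟨y, h1, h2⟩
  have hab : ∀ x, ∃ w, h (mk4 true false) x w ∧ h (mk4 false true) w x := by
    intro x
    have e : h (mk4 true true) = relComp (h (mk4 true false)) (h (mk4 false true)) :=
      hc (mk4 true false) (mk4 false true)
    have h3 := hone x x
    rw [e] at h3
    exact h3
  let r : X → X → Prop := fun w x => h (mk4 true false) x w ∧ h (mk4 false true) w x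
  have htrans : IsTrans X r := ⟨fun a b c h1 h2 => ⟨haa _ _ _ h2.1 h1.1, hbb _ _ _ h1.2 h2.2⟩⟩
  have hirr : Std.Irrefl r := ⟨fun a h1 => hdisj a a h1.1 h1.2⟩
  have hwf : WellFounded r := Finite.wellFounded_of_trans_of_irrefl r
  obtain ⟨m, _, hm⟩ := hwf.has_min Set.univ ⟨hne.some, trivial⟩
  obtain ⟨w, hw'⟩ := hab m
  exact hm w trivial hw'

theorem no_frp : ¬ FiniteRepresentationProperty.{u} := fun h => A4_no_finite (h A4 A4_rwis)

/-! ### The algebras attached to a set `I` -/

/-- The carrier: pairs of a subset of `I` and a label in `I` with two more elements. -/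
structure Car (I : Type u) : Type u where
  t : Set I
  r : Option (Option I)
  h : ∀ i ∈ t, r ≠ some (some i)

theorem Car.ext' {I : Type u} {a b : Car I} (h₁ : a.t = b.t) (h₂ : a.r = b.r) : a = b := by
  cases a
  cases b
  simp only at h₁ h₂
  subst h₁
  subst h₂
  rfl

open Classical in
/-- Implication of labels. -/
noncomputable def rimp {I : Type u} (r r' : Option (Option I)) : Option (Option I) :=
  if r = r' then none else r'

/-- Implication. -/
noncomputable def carImp {I : Type u} (a b : Car I) : Car I where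
  t := {i | (i ∈ a.t → i ∈ b.t) ∧ rimp a.r b.r ≠ some (some i)}
  r := rimp a.r b.r
  h := fun _ hi => hi.2

/-- Composition. -/
def carComp {I : Type u} (a b : Car I) : Car I where
  t := {i | a.t.Nonempty ∧ b.r ≠ some (some i)}
  r := b.r
  h := fun _ hi => hi.2

noncomputable instance carStr (I : Type u) : sig.Structure (Car I) where
  funMap {n} f v := match n, f, v with
    | _, OpSym.comp, v => carComp (v 0) (v 1)
    | _, OpSym.imp, v => carImp (v 0) (v 1)
  RelMap r := r.elim

theorem opComp_car {I : Type u} (a b : Car I) : opComp a b = carComp a b := rfl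

theorem opImp_car {I : Type u} (a b : Car I) : opImp a b = carImp a b := rfl

/-- The elements with the largest possible set. -/
def gg {I : Type u} (r : Option (Option I)) : Car I where
  t := {i | r ≠ some (some i)}
  r := r
  h := fun _ hi => hi

/-- The element with empty set and top label. -/
def dd {I : Type u} : Car I where
  t := ∅
  r := none
  h := fun _ hi => by simp at hi

theorem imp_self_car {I : Type u} (a : Car I) : carImp a a = gg none := by
  apply Car.ext'
  · ext i
    simp [carImp, gg, rimp]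
  · simp [carImp, gg, rimp]

theorem one_comp {I : Type u} [Nonempty I] (r : Option (Option I)) :
    carComp (gg none) (gg r) = gg r := by
  apply Car.ext'
  · ext i
    have : (gg (I := I) none).t.Nonempty := ⟨Classical.arbitrary I, by simp [gg]⟩
    simp only [carComp, this, true_and]
    rfl
  · rfl

theorem dd_comp {I : Type u} : carComp (dd (I := I)) (gg none) = dd := by
  apply Car.ext'
  · ext i
    simp [carComp, dd]
  · rfl

theorem imp_step {I : Type u} (i : I) (c : Car I) (l : List I) (h₁ : c.t = {i | i ∈ l})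
    (h₂ : c.r = none) : (carImp (gg (some (some i))) c).t = {j | j ∈ i :: l} ∧
      (carImp (gg (some (some i))) c).r = none := by
  have h3 : rimp (some (some i)) (none : Option (Option I)) = none := by simp [rimp]
  refine ⟨?_, by simp only [carImp, gg, h₂, h3]⟩
  ext j
  simp only [carImp, h₁, h₂, gg, Set.mem_ofPred_eq, h3, List.mem_cons]
  constructor
  · rintro ⟨h, -⟩
    by_cases hj : j = i
    · exact Or.inl hj
    · right
      apply h
      simp only [ne_eq, Option.some.injEq]
      exact fun h => hj h.symm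
  · rintro (rfl | h)
    · exact ⟨fun h => absurd rfl h, by simp⟩
    · exact ⟨fun _ => h, by simp⟩

theorem foldr_dd {I : Type u} (l : List I) :
    (l.foldr (fun i acc => carImp (gg (some (some i))) acc) dd).t = {i | i ∈ l} ∧
      (l.foldr (fun i acc => carImp (gg (some (some i))) acc) dd).r = none := by
  induction l with
  | nil => simp [dd]
  | cons i l ih =>
    rw [List.foldr_cons]
    exact imp_step i _ l ih.1 ih.2

theorem foldr_g0 {I : Type u} (l : List I) :
    l.foldr (fun i acc => carImp (gg (some (some i))) acc) (gg (some none)) = gg (some none) := by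
  induction l with
  | nil => rfl
  | cons i l ih =>
    rw [List.foldr_cons, ih]
    apply Car.ext'
    · ext j
      simp [carImp, gg, rimp]
    · simp [carImp, gg, rimp]

/-- For finite nonempty `I` the algebra is not representable. -/
theorem not_rwis (I : Type u) [Finite I] [Nonempty I] : ¬ IsRWIS (Car I) := by
  rintro ⟨X, inst, h, hinj, hw, hc, hi⟩
  simp only [opComp_car, opImp_car] at hc hi
  have hone : ∀ x y, h (gg none) x y := by
    intro x y
    have e := hi dd dd
    rw [imp_self_car] at e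
    rw [e]
    intro x' y' _ _ h
    exact h
  have hleft : ∀ r x x' y, h (gg r) x y → h (gg r) x' y := by
    intro r x x' y hxy
    have e := hc (gg none) (gg r)
    rw [one_comp] at e
    rw [e]
    exact ⟨x, hone _ _, hxy⟩
  have hright : ∀ x y y', h dd x y → h dd x y' := by
    intro x y y' hxy
    have e := hc dd (gg none)
    rw [dd_comp] at e
    rw [e]
    exact ⟨y, hxy, hone _ _⟩
  have hd : ∃ x₀, ∀ y, ¬ h dd x₀ y := by
    by_contra hcon
    push Not at hcon
    have : h dd = h (gg none) := by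
      funext x y
      apply propext
      refine ⟨fun _ => hone _ _, fun _ => ?_⟩
      obtain ⟨y', hy'⟩ := hcon x
      exact hright _ _ _ hy'
    have := congrArg Car.t (hinj this)
    have h1 : Classical.arbitrary I ∈ (dd (I := I)).t := by
      rw [this]
      simp [gg]
    exact h1
  have hfold : ∀ (c : Car I) (l : List I) (x y : X),
      h (l.foldr (fun i acc => carImp (gg (some (some i))) acc) c) x y ↔
        ∀ x' y', x' ≤ x → y ≤ y' → (∀ i ∈ l, h (gg (some (some i))) x' y') → h c x' y' := by
    intro c l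
    induction l with
    | nil =>
      intro x y
      simp only [List.foldr_nil]
      exact ⟨fun h1 x' y' h2 h3 _ => hw c x' x y y' h2 h1 h3,
        fun h1 => h1 x y le_rfl le_rfl (by simp)⟩
    | cons i l ih =>
      intro x y
      rw [List.foldr_cons, hi]
      constructor
      · intro h1 x' y' h2 h3 h4
        exact (ih x' y').1 (h1 x' y' h2 h3 (h4 i (by simp))) x' y' le_rfl le_rfl
          (fun j hj => h4 j (by simp [hj]))
      · intro h1 x' y' h2 h3 h4
        rw [ih]
        intro x'' y'' h5 h6 h7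
        refine h1 x'' y'' (h5.trans h2) (h3.trans h6) ?_
        intro j hj
        rcases List.mem_cons.1 hj with rfl | hj
        · exact hw _ _ _ _ _ h5 h4 h6
        · exact h7 j hj
  obtain ⟨x₀, hx₀⟩ := hd
  have := Fintype.ofFinite I
  have hnone : ∀ x y, ¬ ∀ i : I, h (gg (some (some i))) x y := by
    intro x y hall
    have e : (Finset.univ : Finset I).toList.foldr
        (fun i acc => carImp (gg (some (some i))) acc) dd = gg none := by
      apply Car.ext'
      · rw [(foldr_dd _).1]
        ext i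
        simp [gg]
      · rw [(foldr_dd _).2]
        rfl
    have h1 := hone x₀ y
    rw [← e, hfold] at h1
    exact hx₀ y (h1 x₀ y le_rfl le_rfl (fun i _ => hleft _ _ _ _ (hall i)))
  have hbad : h (gg (some none)) = h (gg none) := by
    funext x y
    apply propext
    refine ⟨fun _ => hone _ _, fun _ => ?_⟩
    rw [← foldr_g0 (Finset.univ : Finset I).toList, hfold]
    intro x' y' _ _ hall
    exact absurd (fun i => hall i (by simp)) (hnone x' y')
  have := congrArg Car.r (hinj hbad)
  simp [gg] at this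

/-! ### The representation of an ultraproduct -/

/-- The finite index sets. -/
abbrev Ix (k : ℕ) : Type u := ULift.{u} (Fin (k + 1))

/-- The number `n` as an element of the index set, for large `k`. -/
def cst (n k : ℕ) : Ix.{u} k := ⟨Fin.ofNat (k + 1) n⟩

/-- The possible right coordinates of the points. -/
inductive Qt (J : Type u) : Type u
  | bot : Qt J
  | top : Qt J
  | pt (j : J) : Qt J

instance (J : Type u) : PartialOrder (Qt J) where
  le a b := a = b ∨ (a = .bot ∧ b = .top)
  le_refl a := Or.inl rfl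
  le_trans a b c h₁ h₂ := by
    rcases h₁ with rfl | ⟨rfl, rfl⟩
    · exact h₂
    · rcases h₂ with rfl | ⟨h, _⟩
      · exact Or.inr ⟨rfl, rfl⟩
      · cases h
  le_antisymm a b h₁ h₂ := by
    rcases h₁ with rfl | ⟨rfl, rfl⟩
    · rfl
    · rcases h₂ with h | ⟨h, _⟩
      · exact h.symm
      · cases h

/-- The points. -/
structure Pnt (J : Type u) : Type u where
  l : Bool
  q : Qt J

instance (J : Type u) : PartialOrder (Pnt J) where
  le x y := (y.l = true → x.l = true) ∧ x.q ≤ y.q
  le_refl x := ⟨id, le_rfl⟩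
  le_trans x y z h₁ h₂ := ⟨fun h => h₁.1 (h₂.1 h), h₁.2.trans h₂.2⟩
  le_antisymm x y h₁ h₂ := by
    obtain ⟨l, q⟩ := x
    obtain ⟨l', q'⟩ := y
    have e1 : l = l' := Bool.eq_iff_iff.2 ⟨h₂.1, h₁.1⟩
    have e2 : q = q' := le_antisymm h₁.2 h₂.2
    rw [e1, e2]

/-- Sequences of elements. -/
abbrev Sq : Type u := ∀ k : ℕ, Car (Ix.{u} k)

/-- Large sets of the sequence. -/
def NT (s : Sq.{u}) : Prop :=
  ∀ᶠ n in (hyperfilter ℕ : Filter ℕ), ∀ᶠ k in (hyperfilter ℕ : Filter ℕ), cst n k ∈ (s k).t

/-- The points of the label. -/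
def inR (s : Sq.{u}) : Qt (∀ k, Ix.{u} k) → Prop
  | .bot => ∀ᶠ k in (hyperfilter ℕ : Filter ℕ), (s k).r ≠ some none
  | .top => True
  | .pt i => ∀ᶠ k in (hyperfilter ℕ : Filter ℕ), (s k).r ≠ some (some (i k))

/-- The points of the set. -/
def inT (s : Sq.{u}) : Qt (∀ k, Ix.{u} k) → Prop
  | .bot => NT s
  | .top => NT s
  | .pt i => ∀ᶠ k in (hyperfilter ℕ : Filter ℕ), i k ∈ (s k).t

/-- The representation, on sequences. -/
def H (s : Sq.{u}) (x y : Pnt (∀ k, Ix.{u} k)) : Prop :=
  inR s y.q ∧ (x.l = true ∨ inT s y.q)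

theorem le_pt {J : Type u} {q : Qt J} {j : J} (h : Qt.pt j ≤ q) : q = .pt j := by
  rcases h with h | ⟨h, _⟩
  · exact h.symm
  · cases h

theorem le_top' {J : Type u} {q : Qt J} (h : Qt.top ≤ q) : q = .top := by
  rcases h with h | ⟨h, _⟩
  · exact h.symm
  · cases h

theorem le_bot' {J : Type u} {q : Qt J} (h : Qt.bot ≤ q) : q = .bot ∨ q = .top := by
  rcases h with h | ⟨_, h⟩
  · exact Or.inl h.symm
  · exact Or.inr h

theorem inR_mono (s : Sq.{u}) {q q' : Qt (∀ k, Ix.{u} k)} (h : q ≤ q') (hq : inR s q) :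
    inR s q' := by
  rcases h with rfl | ⟨rfl, rfl⟩
  · exact hq
  · trivial

theorem inT_mono (s : Sq.{u}) {q q' : Qt (∀ k, Ix.{u} k)} (h : q ≤ q') (hq : inT s q) :
    inT s q' := by
  rcases h with rfl | ⟨rfl, rfl⟩
  · exact hq
  · exact hq

theorem H_weak (s : Sq.{u}) : IsWeakening (H s) := by
  intro x' x y y' h₁ h₂ h₃
  refine ⟨inR_mono s h₃.2 h₂.1, ?_⟩
  rcases h₂.2 with h | h
  · exact Or.inl (h₁.1 h)
  · exact Or.inr (inT_mono s h₃.2 h)

/-- The limit point is not one of the points. -/
theorem nonprincipal (ρ : ∀ k : ℕ, Option (Option (Ix.{u} k))) :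
    ∀ᶠ n in (hyperfilter ℕ : Filter ℕ), ∀ᶠ k in (hyperfilter ℕ : Filter ℕ),
      ρ k ≠ some (some (cst n k)) := by
  by_contra hcon
  rw [← Ultrafilter.eventually_not] at hcon
  have h1 : ∀ᶠ n in (hyperfilter ℕ : Filter ℕ), ∀ᶠ k in (hyperfilter ℕ : Filter ℕ),
      ρ k = some (some (cst n k)) := by
    refine hcon.mono fun n hn => ?_
    rw [← Ultrafilter.eventually_not] at hn
    exact hn.mono fun k hk => not_not.1 hk
  obtain ⟨n, hn⟩ := h1.exists
  have h2 : ∀ᶠ m in (hyperfilter ℕ : Filter ℕ), m ≠ n := by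
    have : ({n}ᶜ : Set ℕ) ∈ hyperfilter ℕ := compl_mem_hyperfilter_of_finite (Set.finite_singleton n)
    exact this
  obtain ⟨m, hm, hmn⟩ := (h1.and h2).exists
  have h3 : ∀ᶠ k in (hyperfilter ℕ : Filter ℕ), max m n ≤ k := by
    have h4 : ∀ᶠ k in (cofinite : Filter ℕ), max m n ≤ k := by
      rw [Nat.cofinite_eq_atTop]
      exact eventually_ge_atTop _
    exact hyperfilter_le_cofinite h4
  obtain ⟨k, ⟨hk1, hk2⟩, hk3⟩ := ((hn.and hm).and h3).exists
  rw [hk1] at hk2
  simp only [Option.some.injEq] at hk2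
  have h5 : Fin.ofNat (k + 1) n = Fin.ofNat (k + 1) m := congrArg ULift.down hk2
  have h6 := congrArg Fin.val h5
  simp only [Fin.ofNat] at h6
  have h7 : n < k + 1 := by have := le_max_right m n; omega
  have h8 : m < k + 1 := by have := le_max_left m n; omega
  rw [Nat.mod_eq_of_lt h7, Nat.mod_eq_of_lt h8] at h6
  exact hmn h6.symm

theorem inT_comp (s s' : Sq.{u}) (q : Qt (∀ k, Ix.{u} k)) (hq : inR s' q) :
    inT (fun k => carComp (s k) (s' k)) q ↔
      ∀ᶠ k in (hyperfilter ℕ : Filter ℕ), (s k).t.Nonempty := by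
  have hNT : NT (fun k => carComp (s k) (s' k)) ↔
      ∀ᶠ k in (hyperfilter ℕ : Filter ℕ), (s k).t.Nonempty := by
    constructor
    · intro h
      obtain ⟨n, hn⟩ := h.exists
      exact hn.mono fun k hk => hk.1
    · intro h
      exact (nonprincipal (fun k => (s' k).r)).mono fun n hn => (h.and hn).mono fun k hk => hk
  cases q with
  | bot => exact hNT
  | top => exact hNT
  | pt i =>
    constructor
    · intro h
      exact Eventually.mono h fun k hk => hk.1
    · intro h
      exact (h.and hq).mono fun k hk => hk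

theorem H_comp (s s' : Sq.{u}) :
    H (fun k => carComp (s k) (s' k)) = relComp (H s) (H s') := by
  funext x y
  apply propext
  have hR : ∀ q, inR (fun k => carComp (s k) (s' k)) q ↔ inR s' q := by
    intro q
    cases q <;> exact Iff.rfl
  constructor
  · rintro ⟨h1, h2⟩
    rw [hR] at h1
    rcases h2 with h2 | h2
    · exact ⟨⟨true, .top⟩, ⟨trivial, Or.inl h2⟩, h1, Or.inl rfl⟩
    · rw [inT_comp _ _ _ h1] at h2
      let i : ∀ k, Ix.{u} k := fun k =>
        open Classical in if h : (s k).t.Nonempty then h.some else cst 0 k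
      have h3 : ∀ᶠ k in (hyperfilter ℕ : Filter ℕ), i k ∈ (s k).t := by
        refine h2.mono fun k hk => ?_
        simp only [i, hk, dite_true]
        exact hk.some_mem
      refine ⟨⟨true, .pt i⟩, ⟨?_, Or.inr h3⟩, h1, Or.inl rfl⟩
      exact Eventually.mono h3 fun k hk => (s k).h _ hk
  · rintro ⟨w, ⟨h1, h2⟩, h3, h4⟩
    refine ⟨(hR _).2 h3, ?_⟩
    rcases h2 with h2 | h2
    · exact Or.inl h2
    · right
      rw [inT_comp _ _ _ h3]
      obtain ⟨l, q⟩ := w
      cases q with
      | bot =>
        obtain ⟨n, hn⟩ := Eventually.exists h2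
        exact Eventually.mono hn fun k hk => ⟨_, hk⟩
      | top =>
        obtain ⟨n, hn⟩ := Eventually.exists h2
        exact Eventually.mono hn fun k hk => ⟨_, hk⟩
      | pt i => exact Eventually.mono h2 fun k hk => ⟨_, hk⟩

theorem rimp_ne {I : Type u} (r r' : Option (Option I)) (ρ : Option I) :
    rimp r r' ≠ some ρ ↔ (r ≠ some ρ → r' ≠ some ρ) := by
  unfold rimp
  split_ifs with h
  · subst h
    simp
  · constructor
    · intro h1 _
      exact h1
    · intro h1 h2
      apply h1 _ h2
      rw [← h2]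
      exact h

theorem inR_imp (s s' : Sq.{u}) (q : Qt (∀ k, Ix.{u} k)) :
    inR (fun k => carImp (s k) (s' k)) q ↔ (inR s q → inR s' q) := by
  cases q with
  | bot =>
    simp only [inR, carImp, rimp_ne]
    exact Ultrafilter.eventually_imp
  | top => simp [inR]
  | pt i =>
    simp only [inR, carImp, rimp_ne]
    exact Ultrafilter.eventually_imp

theorem inT_imp (s s' : Sq.{u}) (q : Qt (∀ k, Ix.{u} k))
    (hq : inR (fun k => carImp (s k) (s' k)) q) :
    inT (fun k => carImp (s k) (s' k)) q ↔ (inT s q → inT s' q) := by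
  have hNT : NT (fun k => carImp (s k) (s' k)) ↔ (NT s → NT s') := by
    unfold NT
    rw [← Ultrafilter.eventually_imp]
    simp_rw [← Ultrafilter.eventually_imp]
    constructor
    · intro h
      exact h.mono fun n hn => hn.mono fun k hk => hk.1
    · intro h
      exact (h.and (nonprincipal (fun k => rimp (s k).r (s' k).r))).mono fun n hn =>
        (hn.1.and hn.2).mono fun k hk => hk
  cases q with
  | bot => exact hNT
  | top => exact hNT
  | pt i =>
    simp only [inT]
    rw [← Ultrafilter.eventually_imp]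
    constructor
    · intro h
      exact h.mono fun k hk => hk.1
    · intro h
      exact (h.and hq).mono fun k hk => hk

theorem H_imp (s s' : Sq.{u}) :
    H (fun k => carImp (s k) (s' k)) = relImp (H s) (H s') := by
  funext x y
  apply propext
  constructor
  · rintro ⟨h1, h2⟩ x' y' hx hy ⟨h3, h4⟩
    have h1' := inR_mono _ hy.2 h1
    have h5 := (inR_imp s s' _).1 h1' h3
    refine ⟨h5, ?_⟩
    rcases h4 with h4 | h4
    · exact Or.inl h4
    · rcases h2 with h2 | h2
      · exact Or.inl (hx.1 h2)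
      · right
        have h2' := inT_mono _ hy.2 h2
        exact (inT_imp s s' _ h1').1 h2' h4
  · intro h
    have h1 : inR (fun k => carImp (s k) (s' k)) y.q := by
      rw [inR_imp]
      intro h2
      exact (h ⟨true, x.q⟩ y ⟨fun _ => rfl, le_rfl⟩ le_rfl ⟨h2, Or.inl rfl⟩).1
    refine ⟨h1, ?_⟩
    by_cases hx : x.l = true
    · exact Or.inl hx
    · right
      rw [inT_imp s s' _ h1]
      intro h2
      have h3 : inR s y.q → inT s' y.q := by
        intro h3
        rcases (h x y le_rfl le_rfl ⟨h3, Or.inr h2⟩).2 with h4 | h4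
        · exact absurd h4 hx
        · exact h4
      obtain ⟨l, q⟩ := y
      cases q with
      | bot =>
        have h4 := h x ⟨l, .top⟩ le_rfl ⟨id, Or.inr ⟨rfl, rfl⟩⟩ ⟨trivial, Or.inr h2⟩
        rcases h4.2 with h5 | h5
        · exact absurd h5 hx
        · exact h5
      | top => exact h3 trivial
      | pt i =>
        apply h3
        exact Eventually.mono h2 fun k hk => (s k).h _ hk

theorem H_congr {s s' : Sq.{u}} (h : ∀ᶠ k in (hyperfilter ℕ : Filter ℕ), s k = s' k) :
    H s = H s' := by
  have h1 : ∀ q, inR s q → inR s' q := by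
    intro q hq
    cases q with
    | bot => exact (h.and hq).mono fun k hk => hk.1 ▸ hk.2
    | top => trivial
    | pt i => exact (h.and hq).mono fun k hk => hk.1 ▸ hk.2
  have h2 : ∀ q, inT s q → inT s' q := by
    intro q hq
    have hNT : NT s → NT s' := by
      intro hn
      exact Eventually.mono hn fun n hn => (h.and hn).mono fun k hk => hk.1 ▸ hk.2
    cases q with
    | bot => exact hNT hq
    | top => exact hNT hq
    | pt i => exact (h.and hq).mono fun k hk => hk.1 ▸ hk.2
  have h' : ∀ᶠ k in (hyperfilter ℕ : Filter ℕ), s' k = s k := h.mono fun k hk => hk.symm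
  have h1' : ∀ q, inR s' q → inR s q := by
    intro q hq
    cases q with
    | bot => exact (h'.and hq).mono fun k hk => hk.1 ▸ hk.2
    | top => trivial
    | pt i => exact (h'.and hq).mono fun k hk => hk.1 ▸ hk.2
  have h2' : ∀ q, inT s' q → inT s q := by
    intro q hq
    have hNT : NT s' → NT s := by
      intro hn
      exact Eventually.mono hn fun n hn => (h'.and hn).mono fun k hk => hk.1 ▸ hk.2
    cases q with
    | bot => exact hNT hq
    | top => exact hNT hq
    | pt i => exact (h'.and hq).mono fun k hk => hk.1 ▸ hk.2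
  funext x y
  apply propext
  constructor
  · rintro ⟨h3, h4⟩
    exact ⟨h1 _ h3, h4.imp id (h2 _)⟩
  · rintro ⟨h3, h4⟩
    exact ⟨h1' _ h3, h4.imp id (h2' _)⟩

theorem H_inj {s s' : Sq.{u}} (h : H s = H s') :
    ∀ᶠ k in (hyperfilter ℕ : Filter ℕ), s k = s' k := by
  have hR : ∀ q, inR s q ↔ inR s' q := by
    intro q
    have h1 := congrFun (congrFun h ⟨true, q⟩) ⟨true, q⟩
    have h2 : (inR s q ∧ (true = true ∨ inT s q)) = (inR s' q ∧ (true = true ∨ inT s' q)) := h1
    simpa using h2
  have hT : ∀ q, (inR s q ∧ inT s q) ↔ (inR s' q ∧ inT s' q) := by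
    intro q
    have h1 := congrFun (congrFun h ⟨false, q⟩) ⟨false, q⟩
    have h2 : (inR s q ∧ (false = true ∨ inT s q)) = (inR s' q ∧ (false = true ∨ inT s' q)) := h1
    simpa using h2
  have hNR : ∀ (i : ∀ k, Ix.{u} k), (∀ᶠ k in (hyperfilter ℕ : Filter ℕ),
      (s k).r = some (some (i k))) ↔ (∀ᶠ k in (hyperfilter ℕ : Filter ℕ),
      (s' k).r = some (some (i k))) := by
    intro i
    have h1 := not_congr (hR (.pt i))
    simp only [inR, ← Ultrafilter.eventually_not, not_not, ne_eq] at h1
    exact h1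
  have hN0 : (∀ᶠ k in (hyperfilter ℕ : Filter ℕ),
      (s k).r = some none) ↔ (∀ᶠ k in (hyperfilter ℕ : Filter ℕ), (s' k).r = some none) := by
    have h1 := not_congr (hR .bot)
    simp only [inR, ← Ultrafilter.eventually_not, not_not, ne_eq] at h1
    exact h1
  have tri : ∀ s : Sq.{u}, (∀ᶠ k in (hyperfilter ℕ : Filter ℕ), (s k).r = none) ∨
      (∀ᶠ k in (hyperfilter ℕ : Filter ℕ), (s k).r = some none) ∨
      (∃ i : ∀ k, Ix.{u} k, ∀ᶠ k in (hyperfilter ℕ : Filter ℕ), (s k).r = some (some (i k))) := by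
    intro s
    by_cases h1 : ∀ᶠ k in (hyperfilter ℕ : Filter ℕ), (s k).r = none
    · exact Or.inl h1
    by_cases h2 : ∀ᶠ k in (hyperfilter ℕ : Filter ℕ), (s k).r = some none
    · exact Or.inr (Or.inl h2)
    right; right
    rw [← Ultrafilter.eventually_not] at h1 h2
    refine ⟨fun k => match (s k).r with
      | some (some i) => i
      | _ => cst 0 k, ?_⟩
    refine (h1.and h2).mono fun k hk => ?_
    rcases hr : (s k).r with _ | _ | i
    · exact absurd hr hk.1
    · exact absurd hr hk.2
    · simp only [hr]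
  have hr : ∀ᶠ k in (hyperfilter ℕ : Filter ℕ), (s k).r = (s' k).r := by
    rcases tri s with h1 | h1 | ⟨i, h1⟩
    · rcases tri s' with h2 | h2 | ⟨i, h2⟩
      · exact (h1.and h2).mono fun k hk => hk.1.trans hk.2.symm
      · exact ((hN0.2 h2).and h2).mono fun k hk => hk.1.trans hk.2.symm
      · exact (((hNR i).2 h2).and h2).mono fun k hk => hk.1.trans hk.2.symm
    · exact (h1.and (hN0.1 h1)).mono fun k hk => hk.1.trans hk.2.symm
    · exact (h1.and ((hNR i).1 h1)).mono fun k hk => hk.1.trans hk.2.symm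
  have sub : ∀ s s' : Sq.{u}, (∀ q, (inR s q ∧ inT s q) → (inR s' q ∧ inT s' q)) →
      ∀ᶠ k in (hyperfilter ℕ : Filter ℕ), (s k).t ⊆ (s' k).t := by
    intro s s' hT
    by_contra hcon
    rw [← Ultrafilter.eventually_not] at hcon
    let i : ∀ k, Ix.{u} k := fun k =>
      open Classical in if h : ∃ i, i ∈ (s k).t ∧ i ∉ (s' k).t then h.choose else cst 0 k
    have h3 : ∀ᶠ k in (hyperfilter ℕ : Filter ℕ), i k ∈ (s k).t ∧ i k ∉ (s' k).t := by
      refine hcon.mono fun k hk => ?_
      have h4 : ∃ i, i ∈ (s k).t ∧ i ∉ (s' k).t := Set.not_subset.1 hk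
      simp only [i, h4, dite_true]
      exact h4.choose_spec
    have h5 := (hT (.pt i) ⟨h3.mono fun k hk => (s k).h _ hk.1, h3.mono fun k hk => hk.1⟩).2
    obtain ⟨k, hk1, hk2⟩ := (h3.and h5).exists
    exact hk1.2 hk2
  have ht := (sub s s' fun q => (hT q).1).and (sub s' s fun q => (hT q).2)
  exact (hr.and ht).mono fun k hk => Car.ext' (Set.Subset.antisymm hk.2.1 hk.2.2) hk.1

/-- The ultraproduct. -/
abbrev Up : Type u := (hyperfilter ℕ : Filter ℕ).Product (fun k => Car (Ix.{u} k))

theorem up_comp (s s' : Sq.{u}) : opComp (Quotient.mk _ s : Up.{u}) (Quotient.mk _ s' : Up.{u}) =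
    (Quotient.mk _ (fun k => carComp (s k) (s' k)) : Up.{u}) := by
  have h := Language.Ultraproduct.funMap_cast (M := fun k => Car (Ix.{u} k))
    (u := hyperfilter ℕ) (L := sig) (OpSym.comp : sig.Functions 2) ![s, s']
  refine Eq.trans ?_ h
  unfold opComp
  congr 1
  funext i
  fin_cases i <;> rfl

theorem up_imp (s s' : Sq.{u}) : opImp (Quotient.mk _ s : Up.{u}) (Quotient.mk _ s' : Up.{u}) =
    (Quotient.mk _ (fun k => carImp (s k) (s' k)) : Up.{u}) := by
  have h := Language.Ultraproduct.funMap_cast (M := fun k => Car (Ix.{u} k))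
    (u := hyperfilter ℕ) (L := sig) (OpSym.imp : sig.Functions 2) ![s, s']
  refine Eq.trans ?_ h
  unfold opImp
  congr 1
  funext i
  fin_cases i <;> rfl

theorem up_rwis : IsRWIS Up.{u} := by
  have hlift : ∀ s s' : Sq.{u}, (productSetoid (hyperfilter ℕ : Filter ℕ) _).r s s' →
      H s = H s' := fun s s' h => H_congr h
  let h : Up.{u} → Pnt (∀ k, Ix.{u} k) → Pnt (∀ k, Ix.{u} k) → Prop := Quotient.lift H hlift
  refine ⟨Pnt (∀ k, Ix.{u} k), inferInstance, h, ?_, ?_, ?_, ?_⟩
  · intro a b
    refine Quotient.inductionOn₂ a b fun s s' hss => ?_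
    exact Quotient.sound (H_inj hss)
  · intro a
    refine Quotient.inductionOn a fun s => ?_
    exact H_weak s
  · intro a b
    refine Quotient.inductionOn₂ a b fun s s' => ?_
    exact (congrArg h (up_comp s s')).trans (H_comp s s')
  · intro a b
    refine Quotient.inductionOn₂ a b fun s s' => ?_
    exact (congrArg h (up_imp s s')).trans (H_imp s s')

instance (k : ℕ) : Nonempty (Car (Ix.{u} k)) := ⟨dd⟩

theorem not_fin_ax : ¬ FinitelyAxiomatisable.{u} := by
  rintro ⟨Φ, hfin, hΦ⟩
  have h1 : Up.{u} ⊨ Φ := (hΦ Up.{u}).2 up_rwis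
  have h2 : ∀ φ ∈ Φ, ∀ᶠ k in (hyperfilter ℕ : Filter ℕ), Car (Ix.{u} k) ⊨ φ := by
    intro φ hφ
    exact (Language.Ultraproduct.sentence_realize (M := fun k => Car (Ix.{u} k))
      (u := hyperfilter ℕ) φ).1 (h1.realize_of_mem φ hφ)
  have h3 : ∀ᶠ k in (hyperfilter ℕ : Filter ℕ), ∀ φ ∈ Φ, Car (Ix.{u} k) ⊨ φ :=
    (eventually_all_finite hfin).2 h2
  obtain ⟨k, hk⟩ := h3.exists
  exact not_rwis (Ix.{u} k) ((hΦ (Car (Ix.{u} k))).1 ⟨fun φ hφ => hk φ hφ⟩)

/-- The class of representable weakening implication semigroups is not finitely axiomatisable, and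
it does not have the finite representation property. -/
theorem result : ¬ FinitelyAxiomatisable.{u} ∧ ¬ FiniteRepresentationProperty.{u} :=
  ⟨not_fin_ax, no_frp⟩

end Pool.Agent.Results.MP_5885b3_lc.NotFinAxNoFRP
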